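import Pool.Agent.Y741.LArith

/-!
MP_26d9ad_nt, Q1: integral points on generic pairs in projective space (complements of generic
hypersurfaces in generic complete intersections).

Let `K` be an algebraically closed field of characteristic `0`, and let `k` be a field contained in
`K`, with algebraic closure `k'` in `K`. Let `F_a`, for `a` in a finite set `A`, be forms of degrees
`d_a > 0` in `n + 1` variables over `K` such that the ratios of the coefficients of `F_a` to one of
them are, for all `a` together, algebraically independent over `k`. Let `C` be a proper subset of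
`A`. Let `V` be the complete intersection `F_c = 0`, `c ∈ C`, in projective space of dimension `n`
(which is all of projective space for empty `C`), let `D` be the union of the hypersurfaces
`F_b = 0`, `b ∉ C`, and let `U = V ∖ D`. An exceptional line is a line contained in `V` that meets `D`
in at most two points.

(A) Suppose that `V` is the projective space, or `dim V = n - |C| ≥ 3` (or `3 n + 3 ≤ 2 ∑ d_a + |C|`,
or `∑_{c ∈ C} (d_c + 1) ≤ 2 n - 2`). Then:
(1) if all closed subvarieties of `U` of positive dimension are of log general type, then `U` has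
    only finitely many points over every finitely generated subring `R` of `K` (over the integers).
    So the conjecture is true for `U`, for all degrees;
(2) `U` has only finitely many points over every finitely generated ring if and only if there are
    no exceptional lines, if and only if `2 n + 1 ≤ ∑ d_a + |C|` or `2 n - 1 ≤ ∑_{c ∈ C} (d_c + 1)`
    (for `V` the projective space: if and only if `2 n + 1 ≤ ∑ d_a`);
(3) if `2 n + 1 ≤ ∑ d_a + |C|`, then all closed subvarieties of `U` of positive dimension are of log
    general type.

(B) Suppose that `3 n + 3 ≤ 2 ∑ d_a + |C|`. Then: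
(4) for every finitely generated subring `R` of `K`, all but finitely many of the points of `U` over
    `R` lie on exceptional lines, and every exceptional line contains infinitely many points of `U`
    over some finitely generated ring;
(5) if `|C| ≤ n`, then the exceptional lines are contained, outside of `D`, in `H = 0` for a form `H`
    that does not vanish on all of `U`; so the points of `U` over `R` are, up to finitely many, in a
    proper closed subset of `U` that does not depend on `R`;
(6) for every subring `R` of a finitely generated algebra over `k'`, all but finitely many of the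
    points of `U` over `R` lie on exceptional lines or on finitely many other lines contained in `V`;
(7) the closed subvarieties of `U` of positive dimension `w ≥ 2 n + 2 - (∑ d_a + |C|)` are of log
    general type;
(8) for every form `G`: the points of `U` over every finitely generated ring are, up to finitely
    many, in `G = 0`, if and only if `G` vanishes on all exceptional lines; and if the coefficients
    of the `F_a` (not only their ratios) are algebraically independent over `k`, this holds if and
    only if all closed subvarieties of `U` of positive dimension that are not contained in `G = 0`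
    are of log general type. So the arithmetic special set and the algebraic special set of `U` both
    are the closure of the union of the exceptional lines.

In (6), finitely many lines that meet `D` in three or more points are really needed: such a line can
be isomorphic to a line over `k'`, with `D` corresponding to points over `k'`.

The points over `R` of the complement of `F_b = 0` are the points for which all quotients of
monomials of degree `d_b` by `F_b` are in `R`.

For the subvarieties, `L` is the function field of the subvariety, or a finite extension of it, `w`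
is its dimension, and `x` is its generic point, in homogeneous coordinates. A prime divisor `Q` over
the closure of the subvariety has its centre outside `U` if
`d_b min_i ord_Q (x_i) < ord_Q (F_b (x))` for some `b` not in `C`; `pord Q x` is the minimum of the
orders `ord_Q (x_i)`.
-/

set_option autoImplicit false

namespace Pool.Agent.Results.MP_26d9ad_nt.GenericPairs

open MvPolynomial FF Pool.Agent.W603.PV Pool.Agent.W602.GT Pool.Agent.TH145.MG
open LinearAlgebra.Projectivization

/-- The points over the ring `R` of the complement of the hypersurfaces `F b = 0`, `b ∉ C`, in the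
closed subset `F c = 0`, `c ∈ C`, of projective space. -/
def IntegralPoints {K A : Type} [Field K] {n : ℕ} (F : A → MvPolynomial (Fin (n + 1)) K)
    (d : A → ℕ) (C : Finset A) (R : Subring K) : Set (ℙ K (Fin (n + 1) → K)) :=
  {p | (∀ c ∈ C, eval p.rep (F c) = 0) ∧ ∀ b, b ∉ C → eval p.rep (F b) ≠ 0 ∧
    ∀ I : Fin (n + 1) →₀ ℕ, I.degree = d b → (∏ i, p.rep i ^ I i) / eval p.rep (F b) ∈ R}

/-- A line, given by a vector space of dimension two, that is contained in `F c = 0` for all `c` in
`C`. -/
def IsLine {K A : Type} [Field K] {n : ℕ} (F : A → MvPolynomial (Fin (n + 1)) K) (C : Finset A)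
    (W : Submodule K (Fin (n + 1) → K)) : Prop :=
  Module.finrank K W = 2 ∧ ∀ c ∈ C, ∀ v ∈ W, eval v (F c) = 0

/-- The points of the line where `F b = 0` for some `b ∉ C`. -/
def Boundary {K A : Type} [Field K] {n : ℕ} (F : A → MvPolynomial (Fin (n + 1)) K) (C : Finset A)
    (W : Submodule K (Fin (n + 1) → K)) : Set (ℙ K (Fin (n + 1) → K)) :=
  {p | p.rep ∈ W ∧ ∃ b, b ∉ C ∧ eval p.rep (F b) = 0}

/-- A line contained in `F c = 0` for all `c` in `C` that meets the union of the hypersurfaces
`F b = 0`, `b ∉ C`, in at most two points. -/
def Exceptional {K A : Type} [Field K] {n : ℕ} (F : A → MvPolynomial (Fin (n + 1)) K)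
    (C : Finset A) (W : Submodule K (Fin (n + 1) → K)) : Prop :=
  IsLine F C W ∧ (Boundary F C W).encard ≤ 2

/-- Over every finitely generated ring, there are only finitely many points outside of `G = 0`. -/
def FiniteOutside {K A : Type} [Field K] {n : ℕ} (F : A → MvPolynomial (Fin (n + 1)) K)
    (d : A → ℕ) (C : Finset A) (G : MvPolynomial (Fin (n + 1)) K) : Prop :=
  ∀ (T : Finset K) (R : Subring K), R ≤ Subring.closure (T : Set K) →
    {p | p ∈ IntegralPoints F d C R ∧ eval p.rep G ≠ 0}.Finite

/-- The point `x` of projective space is in `F c = 0` for `c ∈ C`, and not in `F b = 0` for the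
other `b`. -/
def OnPair {K L A : Type} [Field K] [Field L] [Algebra K L] {n : ℕ}
    (F : A → MvPolynomial (Fin (n + 1)) K) (C : Finset A) (x : Fin (n + 1) → L) : Prop :=
  x ≠ 0 ∧ (∀ c ∈ C, aeval x (F c) = 0) ∧ ∀ b, b ∉ C → aeval x (F b) ≠ 0

/-- `L` is (a finite extension of) the function field, and `x` the generic point, of a closed
subvariety of dimension `w` of `U`. -/
def Subvariety {K L A : Type} [Field K] [Field L] [Algebra K L] {n : ℕ}
    (F : A → MvPolynomial (Fin (n + 1)) K) (C : Finset A) (w : ℕ) (x : Fin (n + 1) → L) : Prop :=
  OnPair F C x ∧ Algebra.trdeg K L = w ∧ Algebra.IsAlgebraic (coords K x) L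

/-- The subvariety with generic point `x` is of log general type. -/
def LogGT {K L A : Type} [Field K] [Field L] [Algebra K L] {n : ℕ}
    (F : A → MvPolynomial (Fin (n + 1)) K) (d : A → ℕ) (C : Finset A) (w : ℕ)
    (x : Fin (n + 1) → L) : Prop :=
  LogGeneralType K L w fun Q : Place K L =>
    ∃ b, b ∉ C ∧ d b * pord Q x < Q.ord (aeval x (F b))

/-- All closed subvarieties of positive dimension that are not contained in `G = 0` are of log
general type. -/
def LogGTOutside {K A : Type} [Field K] {n : ℕ} (F : A → MvPolynomial (Fin (n + 1)) K)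
    (d : A → ℕ) (C : Finset A) (G : MvPolynomial (Fin (n + 1)) K) : Prop :=
  ∀ (L : Type) [Field L] [Algebra K L] (w : ℕ) (x : Fin (n + 1) → L), 0 < w →
    Subvariety F C w x → aeval x G ≠ 0 → LogGT F d C w x

/-- The statements (4) to (8), for the pairs with `3 n + 3 ≤ 2 ∑ d_a + |C|`. -/
def SpecialSet (k : Type) {K A : Type} [Field k] [Field K] [Algebra k K] [Fintype A] {n : ℕ}
    (F : A → MvPolynomial (Fin (n + 1)) K) (d : A → ℕ) (C : Finset A) : Prop :=
  -- (4) the points over finitely generated rings
  ((∀ (T : Finset K) (R : Subring K), R ≤ Subring.closure (T : Set K) →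
      {p | p ∈ IntegralPoints F d C R ∧ ¬ ∃ W, Exceptional F C W ∧ p.rep ∈ W}.Finite) ∧
    ∀ W, Exceptional F C W → ∃ T : Finset K,
      {p | p ∈ IntegralPoints F d C (Subring.closure (T : Set K)) ∧ p.rep ∈ W}.Infinite) ∧
  -- (5) the exceptional lines are contained in a proper closed subset
  (C.card ≤ n → ∃ (H : MvPolynomial (Fin (n + 1)) K) (e : ℕ), H.IsHomogeneous e ∧
    (∃ v, (∀ c ∈ C, eval v (F c) = 0) ∧ (∀ b, b ∉ C → eval v (F b) ≠ 0) ∧ eval v H ≠ 0) ∧
    ∀ W, Exceptional F C W → ∀ v ∈ W, (∀ b, b ∉ C → eval v (F b) ≠ 0) → eval v H = 0) ∧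
  -- (6) the points over the subrings of finitely generated algebras over the algebraic closure
  -- of `k`
  (∀ (T : Finset K) (R : Subring K),
    R ≤ Subring.closure ((algebraicClosure k K : Set K) ∪ (T : Set K)) →
    ∃ L : Set (Submodule K (Fin (n + 1) → K)), L.Finite ∧ (∀ W ∈ L, IsLine F C W) ∧
      {p | p ∈ IntegralPoints F d C R ∧ ¬ ∃ W, (Exceptional F C W ∨ W ∈ L) ∧ p.rep ∈ W}.Finite) ∧
  -- (7) subvarieties of large dimension
  (∀ (L : Type) [Field L] [Algebra K L] (w : ℕ) (x : Fin (n + 1) → L), 0 < w →
    2 * n + 2 ≤ ∑ a, d a + C.card + w → Subvariety F C w x → LogGT F d C w x) ∧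
  -- (8) the special sets
  ∀ (G : MvPolynomial (Fin (n + 1)) K) (e : ℕ), G.IsHomogeneous e →
    ((∀ W, Exceptional F C W → ∀ v ∈ W, eval v G = 0) ↔ FiniteOutside F d C G) ∧
    (AlgebraicIndependent k (fun p : (a : A) × {I : Fin (n + 1) →₀ ℕ // I.degree = d a} =>
        (F p.1).coeff p.2.1) →
      ((∀ W, Exceptional F C W → ∀ v ∈ W, eval v G = 0) ↔ LogGTOutside F d C G))

theorem result {k K : Type} [Field k] [Field K] [IsAlgClosed K] [CharZero K] [Algebra k K]
    {n : ℕ} (hn : 1 ≤ n) {A : Type} [Fintype A] [DecidableEq A] {d : A → ℕ} (hd0 : ∀ a, 0 < d a)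
    -- the equations are `F c = 0` for `c ∈ C`, and the other forms give the boundary
    (C : Finset A) (hC : C ≠ Finset.univ)
    -- the forms; the ratios of their coefficients are algebraically independent over `k`
    (F : A → MvPolynomial (Fin (n + 1)) K) (hF : ∀ a, (F a).IsHomogeneous (d a))
    (I0 : ∀ a, {I : Fin (n + 1) →₀ ℕ // I.degree = d a}) (h0 : ∀ a, (F a).coeff (I0 a).1 ≠ 0)
    (hgen : AlgebraicIndependent k
      fun p : (a : A) × {I : {I : Fin (n + 1) →₀ ℕ // I.degree = d a} // I ≠ I0 a} =>
        (F p.1).coeff p.2.1.1 / (F p.1).coeff (I0 p.1).1) :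
    -- (A) the conjecture, for all degrees
    ((C = ∅ ∨ C.card + 3 ≤ n ∨ 3 * n + 3 ≤ 2 * ∑ a, d a + C.card ∨
        ∑ c ∈ C, (d c + 1) ≤ 2 * n - 2) →
      -- (1) the conjecture
      (LogGTOutside F d C 1 → FiniteOutside F d C 1) ∧
      -- (2) the exact range for the conclusion
      (FiniteOutside F d C 1 ↔ ∀ W, ¬ Exceptional F C W) ∧
      ((∀ W, ¬ Exceptional F C W) ↔
        2 * n + 1 ≤ ∑ a, d a + C.card ∨ 2 * n - 1 ≤ ∑ c ∈ C, (d c + 1)) ∧
      -- (3) the hypothesis
      (2 * n + 1 ≤ ∑ a, d a + C.card → LogGTOutside F d C 1)) ∧
    -- (B) the special sets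
    (3 * n + 3 ≤ 2 * ∑ a, d a + C.card → SpecialSet k F d C) := by
  constructor
  · intro hdim
    obtain ⟨h1, h2, h3, h4⟩ := Pool.Agent.Y741.class_pairs hn hd0 C hC (by
      rcases hdim with h | h | h | h
      · right; left
        rw [h, Finset.sum_empty]
        omega
      · exact Or.inr (Or.inr h)
      · exact Or.inl h
      · exact Or.inr (Or.inl h)) F hF I0 h0 hgen
    have e1 : FiniteOutside F d C 1 ↔ ∀ (T : Finset K) (R : Subring K),
        R ≤ Subring.closure (T : Set K) → (IntegralPoints F d C R).Finite := by
      refine forall_congr' fun T => forall_congr' fun R => forall_congr' fun _ => ?_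
      have e2 : {p | p ∈ IntegralPoints F d C R ∧ eval p.rep (1 : MvPolynomial (Fin (n + 1)) K) ≠ 0} =
          IntegralPoints F d C R := by
        ext p
        simp
      rw [e2]
    have e3 : LogGTOutside F d C 1 ↔ ∀ (L : Type) [Field L] [Algebra K L] (w : ℕ)
        (x : Fin (n + 1) → L), 0 < w → Subvariety F C w x → LogGT F d C w x :=
      Pool.Agent.Y741.strL_one
    refine ⟨fun h => ?_, e1.trans h1, h2, fun h => e3.2 (h4 h)⟩
    rw [e1]
    exact h1.2 (h3 (e3.1 h))
  · intro hd
    obtain ⟨h1, h2, -, h4, h5, h6⟩ := Pool.Agent.Y741.generic_pairs hn hd0 C hC hd F hF I0 h0 hgen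
    refine ⟨⟨h1, h2⟩, h4, h5, fun L _ _ w x hw hdw hx => h6 L w x hw hdw hx.2.1 hx.1.1 hx.2.2
      hx.1.2.1 hx.1.2.2, fun G e hG => ⟨Pool.Agent.Y741.arith_iff hn hd0 C hC hd F hF I0 h0 hgen hG,
        fun hind => ?_⟩⟩
    have hC' : ∃ b, b ∉ C := by
      by_contra hcon
      push Not at hcon
      exact hC (Finset.eq_univ_iff_forall.2 hcon)
    exact (Pool.Agent.Y741.strL_iff hn hd0 hF hind hC' hd hG).symm

end Pool.Agent.Results.MP_26d9ad_nt.GenericPairs
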