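import Pool.Agent.Y377.IR.LogFin

/-!
# The Lang-Vojta conjecture for points given by iterated recurrences

Let `H` be a group. We consider the rings of functions on `H` (`FTow`) which are obtained from the
ring of the constants `ℂ` in finitely many steps of the following kind: the entries of an invertible
matrix `X(h)` of functions and of its inverse are added to the ring `R`, where for all `g` in `H` the
entries of `X(gh) X(h)⁻¹`, as functions of `h`, belong to `R`. For the integers these functions are
given by iterated recurrences (`IterRec`): the set of these sequences contains the constants and is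
closed under sums, products and solutions of systems `y(n + 1) = A(n) y(n)` such that the entries of
`A` and of `A⁻¹` belong to the set. So the coefficients of the recurrences can be any functions which
have been obtained before, for example `2 ^ n`, then `2 ^ (n ^ 2)` and the continuants with the
partial denominators `2 ^ n + n`, and so on.

Let `U` be the quasi-projective variety over `ℂ` which is the complement of the hypersurface `Q = 0`
of degree `d > 0` in the projective algebraic set of the ideal `I`; for instance all affine varieties
are of this form. A family of points `P(h)` of `U`, `h ∈ H`, is given by iterated recurrences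
(`IteratedOff`) if all regular functions `x ^ α / Q`, `|α| = d`, along the family belong to a ring of
functions as above. For affine varieties this means that the affine coordinates belong to the ring.

(1) If all closed subvarieties of `U` of positive dimension are of logarithmic general type then
there is no nonconstant map from the punctured line to `U`.

(2) The following are equivalent: there is no nonconstant map from the punctured line to `U`; for
all groups all families of points of `U` given by iterated recurrences are finite; all sequences of
points of `U` (indexed by the integers) given by iterated recurrences are finite.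

(3) For all `U`, every family of points of `U` given by iterated recurrences has only finitely many
members outside the Zariski closure of the union of the images of the punctured line in `U`.

(4) If `U` is a variety of positive dimension with a Zariski-dense family of points given by iterated
recurrences then `U` is not of logarithmic general type.

The parts of the proof are due to helpers 312, 657, 921, 987, 523, 737, 495, 68, 401, 529, 988, 814,
356, 405 and to the authors of the files on iterated linear differential equations (`Y377/IL`).
-/

set_option autoImplicit false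

namespace Pool.Agent.Results.MP_26d9ad_nt.IteratedIntegralPoints

open MvPolynomial Pool.Agent.Y377.IR
open scoped LinearAlgebra.Projectivization
open Pool.Agent.TH143.EL (Rep InV)
open Pool.Agent.TH143.GT (FunField)
open Pool.Agent.W602.GT (IsForm LogGeneralType)
open Pool.Agent.W603.GR (OffQ)
open Pool.Agent.Y377.IL (GmCurve)

variable {N : ℕ}

/-- `P` is a family of points of the complement of `Q = 0` in the algebraic set of `I`. -/
def InU {H : Type} (I : Ideal (MvPolynomial (Fin (N + 1)) ℂ))
    (Q : MvPolynomial (Fin (N + 1)) ℂ) (P : H → ℙ ℂ (Fin (N + 1) → ℂ)) : Prop :=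
  (∀ h, eval (P h).rep Q ≠ 0) ∧ ∀ h, InV I (P h)

/-- all families of points of the complement of `Q = 0` in the algebraic set of `I` given by iterated
recurrences are finite -/
def FamiliesFinite (I : Ideal (MvPolynomial (Fin (N + 1)) ℂ))
    (Q : MvPolynomial (Fin (N + 1)) ℂ) (d : ℕ) : Prop :=
  ∀ (H : Type) [Group H] (P : H → ℙ ℂ (Fin (N + 1) → ℂ)), InU I Q P → IteratedOff Q d P →
    (Set.range P).Finite

/-- all sequences of points of the complement of `Q = 0` in the algebraic set of `I` given by
iterated recurrences are finite -/
def SequencesFinite (I : Ideal (MvPolynomial (Fin (N + 1)) ℂ))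
    (Q : MvPolynomial (Fin (N + 1)) ℂ) (d : ℕ) : Prop :=
  ∀ P : ℤ → ℙ ℂ (Fin (N + 1) → ℂ), InU I Q P → SeqOff Q d P → (Set.range P).Finite

theorem result (N d : ℕ) (I : Ideal (MvPolynomial (Fin (N + 1)) ℂ))
    (Q : MvPolynomial (Fin (N + 1)) ℂ) (hd : 0 < d) (hQ : Q.IsHomogeneous d) :
    (LogGeneralSubvarieties I Q d → ∀ p, ¬ GmCurve I Q p) ∧
    List.TFAE [∀ p, ¬ GmCurve I Q p, FamiliesFinite I Q d, SequencesFinite I Q d] ∧
    (∀ (H : Type) [Group H] (P : H → ℙ ℂ (Fin (N + 1) → ℂ)), InU I Q P → IteratedOff Q d P →
      (Set.range P \ ZClosure (GmPoints I Q)).Finite) ∧
    ∀ (K : Type) [Field K] [Algebra ℂ K] (w : ℕ) (y : Fin (N + 1) → K), FunField I Q K w y →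
      0 < w → ∀ (H : Type) [Group H] (P : H → ℙ ℂ (Fin (N + 1) → ℂ)), InU I Q P →
      IteratedOff Q d P →
      (∀ G : MvPolynomial (Fin (N + 1)) ℂ, IsForm G → (∀ h, eval (P h).rep G = 0) → G ∈ I) →
      ¬ LogGeneralType ℂ K w (OffQ Q d y) := by
  refine ⟨noGm_of_logGeneral hQ, ?_, fun H _ P hU hP => finite_out_gm hd hQ hU.1 hP hU.2,
    fun K _ _ w y hy hw H _ P hU hP hden => dense_not_log hd hQ hy hw hU.1 hP hU.2 hden⟩
  tfae_have 1 → 2 := fun h H _ P hU hP => finite_of_noGm hd hQ h hU.1 hP hU.2
  tfae_have 2 → 3 := by
    intro h P hU hP
    have h1 := h (Multiplicative ℤ) (fun m => P m.toAdd)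
      ⟨fun m => hU.1 m.toAdd, fun m => hU.2 m.toAdd⟩ (iteratedOff_int hP)
    refine h1.subset ?_
    rintro _ ⟨n, rfl⟩
    exact ⟨Multiplicative.ofAdd n, rfl⟩
  tfae_have 3 → 1 := by
    intro h p hp
    obtain ⟨P, h1, h2, h3, h4⟩ := infinite_of_gm hd hQ hp
    exact h4 (h P ⟨h1, h2⟩ h3)
  tfae_finish

end Pool.Agent.Results.MP_26d9ad_nt.IteratedIntegralPoints
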