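import Pool.Agent.Y735.LE.TopF

/-!
MP_26d9ad_nt, Q1: integral points of bounded degree on generic pairs, that is, integral points on
their symmetric powers, with the exact bound.

Let `K` be an algebraically closed field of characteristic `0`, and let `k` be a field contained in
`K`, with algebraic closure `k'` in `K`. For `a` in a finite set `A`, let `F_a` be a generic form of
degree `d_a` in `n + 1` variables: the ratios of the coefficients of `F_a` to one of them are, for
all `a` together, algebraically independent over `k`. Let `C` be a subset of `A`. For a closed
subset `V` of projective space of dimension `n`, let `U_V` be the complement of the union `D` of the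
hypersurfaces `F_b = 0`, `b ∉ C`, in the intersection of `V` with the hypersurfaces `F_c = 0`,
`c ∈ C`.

(1) Let `V` be defined over `k'`, of dimension at most `m`, and let `r` be such that
`2 m + 2 r ≤ ∑ d_a + |C|`. Then for every subring `R` of a finitely generated algebra over `k'`, for
example for every ring `R ⊆ K` that is finitely generated over the integers, `U_V` has only finitely
many points of degree at most `r` over `R`: points with coordinates in some extension `L` of degree
at most `r` of the field of fractions of `R`, that are integral over `R`. The extension `L` is not
fixed. So the unordered configuration spaces `(U_V^s ∖ diagonals) / S_s` and the symmetric powers of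
`U_V`, for `s ≤ r`, have only finitely many points over `R`.

(2) Let `V` be the projective space of dimension `n ≥ 1`, and suppose that
`∑_{c ∈ C} (d_c + 1) ≤ 2 n - 2` and `d_c ≥ 1` for `c ∈ C`, that is, that the complete intersection
`F_c = 0`, `c ∈ C`, contains lines; this includes the case where `C` is empty. Then the bound in (1)
is exact: `U_V` has only finitely many points of degree at most `r` over `R`, for all finitely
generated algebras `R` over `k'` (in `K`), if and only if `2 n + 2 r ≤ ∑ d_a + |C|`. For example, the
complement of a generic hypersurface of degree `d` has only finitely many points of degree at most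
`r` over all finitely generated algebras over `k'` if and only if `d ≥ 2 n + 2 r`. Moreover, if
`∑ d_a + |C| ≤ 2 n + 2 r - 2`, then there are infinitely many points of degree at most `r` over some
ring that is finitely generated over the integers.

The proof of (1): derivations that are dual to the coefficients of the forms give a height
inequality for the points over finite extensions `L` of function fields, in which the integral
points have no contribution from the boundary. With the bound `(2 r - 2) h(x)` for the discriminant
of the field of definition of `x`, the heights with respect to all variables are bounded. In an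
ultrapower, the limit of a sequence of points of degree at most `r` is again an integral point of
degree at most `r`, and the same inequality, with the extensions of the derivations, which are
regular in the logarithmic sense at the places where the limit point is not integral, shows that it
is constant. The proof of (2): if `∑ d_a + |C| < 2 n + 2 r`, there is a line in `F_c = 0`, `c ∈ C`,
that meets `D` in at most `2 r + 1` points, because there are `n` conditions for the contact with the
hypersurfaces at each of two points of the line, and the forms that satisfy such conditions for some
line are again generic, by a computation of the rank of the differential. The points on this line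
are the inverse images of elements of `k'` under a map of degree `r` from the line to itself that
has values `0`, `1` and infinity at the points of `D`.
-/

set_option autoImplicit false

namespace Pool.Agent.Results.MP_26d9ad_nt.PairsBoundedDegree

open MvPolynomial Pool.Agent.TH145.MG LinearAlgebra.Projectivization

/-- The points of degree at most `r` over the ring `R` of the complement of the hypersurfaces
`F b = 0`, `b ∉ C`, in the closed subset of projective space given by `V` and by `F c = 0`, `c ∈ C`:
the coordinates are in an extension `L` of degree at most `r` of the field of fractions of `R`, and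
the values at the point of the quotients of monomials of degree `d b` by `F b` are integral over
`R`. -/
def IntegralPoints {k K A : Type} [Field k] [Field K] [Algebra k K] {n : ℕ}
    (V : Set (MvPolynomial (Fin (n + 1)) k)) (F : A → MvPolynomial (Fin (n + 1)) K) (d : A → ℕ)
    (C : Finset A) (r : ℕ) (R : Subring K) : Set (ℙ K (Fin (n + 1) → K)) :=
  {p | ∃ (x : Fin (n + 1) → K) (hx : x ≠ 0), p = Projectivization.mk K x hx ∧
    (∃ L : IntermediateField (Subfield.closure (R : Set K)) K,
      FiniteDimensional (Subfield.closure (R : Set K)) L ∧
      Module.finrank (Subfield.closure (R : Set K)) L ≤ r ∧ ∀ i, x i ∈ L) ∧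
    (∀ f ∈ V, aeval x f = 0) ∧ (∀ c ∈ C, eval x (F c) = 0) ∧
    ∀ b, b ∉ C → eval x (F b) ≠ 0 ∧ ∀ I : Fin (n + 1) →₀ ℕ, I.degree = d b →
      IsIntegral R ((∏ i, x i ^ I i) / eval x (F b))}

theorem result {k K : Type} [Field k] [Field K] [IsAlgClosed K] [CharZero K] [Algebra k K]
    {n : ℕ} {A : Type} [Fintype A]
    -- generic forms of degrees `d a`; the forms with indices in `C` are equations, the others give
    -- the boundary
    (d : A → ℕ) (C : Finset A) (F : A → MvPolynomial (Fin (n + 1)) K)
    (hF : ∀ a, (F a).IsHomogeneous (d a))
    (I0 : A → Fin (n + 1) →₀ ℕ) (h0 : ∀ a, (F a).coeff (I0 a) ≠ 0)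
    (hgen : AlgebraicIndependent k
      fun p : (a : A) × {I : Fin (n + 1) →₀ ℕ // I.degree = d a ∧ I ≠ I0 a} =>
        (F p.1).coeff p.2.1 / (F p.1).coeff (I0 p.1)) :
    -- (1) finiteness of the integral points of bounded degree on `V`, a closed subset of projective
    -- space over the algebraic closure of `k`
    (∀ (V : Set (MvPolynomial (Fin (n + 1)) (algebraicClosure k K))) (m r : ℕ),
      (∀ f ∈ V, ∃ e, f.IsHomogeneous e) → DimLE (algebraicClosure k K) V m →
      2 * m + 2 * r ≤ ∑ a, d a + C.card →
      ∀ (T : Finset K) (R : Subring K),
        R ≤ Subring.closure ((algebraicClosure k K : Set K) ∪ (T : Set K)) →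
        (IntegralPoints V F d C r R).Finite) ∧
    -- (2) the bound is exact if `V` is the projective space and the hypersurfaces `F c = 0`,
    -- `c ∈ C`, contain a common line
    (1 ≤ n → (∀ c ∈ C, 1 ≤ d c) → ∑ c ∈ C, (d c + 1) ≤ 2 * (n - 1) → ∀ r : ℕ, 0 < r →
      ((∀ T : Finset K,
        (IntegralPoints (∅ : Set (MvPolynomial (Fin (n + 1)) (algebraicClosure k K))) F d C r
          (Subring.closure ((algebraicClosure k K : Set K) ∪ (T : Set K)))).Finite) ↔
        2 * n + 2 * r ≤ ∑ a, d a + C.card) ∧
      (∑ a, d a + C.card + 2 ≤ 2 * n + 2 * r → ∃ T : Finset K,
        (IntegralPoints (∅ : Set (MvPolynomial (Fin (n + 1)) (algebraicClosure k K))) F d C r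
          (Subring.closure (T : Set K))).Infinite)) :=
  ⟨fun V _ _ hVh hV hd T R hR =>
      Pool.Agent.Y735.LB.fin_IPts C hd V hVh hV F hF I0 h0 hgen T R hR,
    fun hn hd hC _ hr =>
      ⟨Pool.Agent.Y735.LE.iff_IPts hn hr hd hC hF I0 h0 hgen,
        fun h => Pool.Agent.Y735.LE.inf_IPts hn hr hd hC h hF I0 h0 hgen⟩⟩

end Pool.Agent.Results.MP_26d9ad_nt.PairsBoundedDegree
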